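import Mathlib
import Pool.Agent.Helper48.LurothFinal

set_option autoImplicit false

open Filter Topology Set MeasureTheory Pool.Agent.Helper48.Luroth
open scoped ENNReal NNReal

namespace Pool.Agent.Results.MP_4648ce_an.ImageInterval

/-- The set of Hausdorff dimensions of the asymptotic sets of the Lüroth map is `[0, 1/2]`. -/
theorem result :
    {d : ℝ≥0∞ | ∃ x ∈ Icc (0 : ℝ) 1, dimH (asymptoticSet x) = d} = Icc 0 (1 / 2) := by
  have hhalf : ((1 / 2 : ℝ≥0) : ℝ≥0∞) = 1 / 2 := by
    rw [ENNReal.coe_div (by norm_num)]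
    norm_num
  ext d
  constructor
  · rintro ⟨x, hx, rfl⟩
    exact ⟨zero_le, (dimH_asymptoticSet_le hx).trans_eq hhalf⟩
  · rintro ⟨-, hd⟩
    have hdt : d ≠ ⊤ := by
      intro h
      rw [h, ← hhalf] at hd
      exact absurd hd (by simp)
    by_cases hd0 : d = 0
    · exact ⟨1, ⟨zero_le_one, le_rfl⟩, by rw [hd0]; exact dimH_fixed_one⟩
    · have h1 : 0 < d.toReal := ENNReal.toReal_pos hd0 hdt
      have h2 : d.toReal ≤ 1 / 2 := by
        have := ENNReal.toReal_mono (by rw [← hhalf]; exact ENNReal.coe_ne_top) hd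
        simpa using this
      obtain ⟨x, hx, hdim⟩ := exists_dim h1 h2
      exact ⟨x, hx, by rw [hdim, ENNReal.ofReal_toReal hdt]⟩

end Pool.Agent.Results.MP_4648ce_an.ImageInterval
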